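import Mathlib

/-!
# Actions on complete linear orders of the fundamental groups of Dehn fillings of
(generalised) once-punctured torus bundles of negative type.
-/

namespace H88TB

section Basic
variable {G X : Type*} [Group G] [CompleteLinearOrder X] [MulAction G X]

theorem smul_lt_iff (hm : ∀ (g : G) (x y : X), x < y → g • x < g • y) (g : G) (x y : X) :
    g • x < g • y ↔ x < y := by
  refine ⟨fun h => ?_, hm g x y⟩
  rcases lt_trichotomy x y with h' | h' | h'
  · exact h'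
  · subst h'; exact absurd h (lt_irrefl _)
  · exact absurd (hm g y x h') (lt_asymm h)

theorem smul_le_iff (hm : ∀ (g : G) (x y : X), x < y → g • x < g • y) (g : G) (x y : X) :
    g • x ≤ g • y ↔ x ≤ y := by
  rw [← not_lt, smul_lt_iff hm, not_lt]

theorem lt_inv_smul (hm : ∀ (g : G) (x y : X), x < y → g • x < g • y) (g : G) (x y : X) :
    x < g⁻¹ • y ↔ g • x < y := by
  rw [← smul_lt_iff hm g, smul_inv_smul]

theorem inv_smul_lt (hm : ∀ (g : G) (x y : X), x < y → g • x < g • y) (g : G) (x y : X) :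
    g⁻¹ • x < y ↔ x < g • y := by
  rw [← smul_lt_iff hm g, smul_inv_smul]

/-- a supremum of fixed points is fixed -/
theorem fixed_sSup (hm : ∀ (g : G) (x y : X), x < y → g • x < g • y) (g : G) (S : Set X)
    (h : ∀ z ∈ S, g • z = z) : g • sSup S = sSup S := by
  have key : ∀ g : G, (∀ z ∈ S, g • z = z) → sSup S ≤ g • sSup S := by
    intro g h
    refine sSup_le fun z hz => ?_
    calc z = g • z := (h z hz).symm
      _ ≤ g • sSup S := (smul_le_iff hm g _ _).2 (le_sSup hz)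
  refine le_antisymm ?_ (key g h)
  have := key g⁻¹ (fun z hz => by rw [inv_smul_eq_iff]; exact (h z hz).symm)
  rwa [← smul_le_iff hm g, smul_inv_smul] at this

theorem fixed_sInf (hm : ∀ (g : G) (x y : X), x < y → g • x < g • y) (g : G) (S : Set X)
    (h : ∀ z ∈ S, g • z = z) : g • sInf S = sInf S := by
  have key : ∀ g : G, (∀ z ∈ S, g • z = z) → g • sInf S ≤ sInf S := by
    intro g h
    refine le_sInf fun z hz => ?_
    calc g • sInf S ≤ g • z := (smul_le_iff hm g _ _).2 (sInf_le hz)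
      _ = z := h z hz
  refine le_antisymm (key g h) ?_
  have := key g⁻¹ (fun z hz => by rw [inv_smul_eq_iff]; exact (h z hz).symm)
  rwa [← smul_le_iff hm g, smul_inv_smul] at this

theorem ivp_aux (hm : ∀ (g : G) (x y : X), x < y → g • x < g • y) (g : G) (x y : X)
    (hxy : x < y) (hx : x < g • x) (hy : g • y < y) : ∃ z, g • z = z ∧ x ≤ z ∧ z ≤ y := by
  let S : Set X := {w | w ≤ y ∧ w ≤ g • w}
  have h1 : sSup S ≤ y := sSup_le fun w hw => hw.1
  have h2 : x ≤ sSup S := le_sSup ⟨hxy.le, hx.le⟩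
  have h3 : sSup S ≤ g • sSup S :=
    sSup_le fun w hw => hw.2.trans ((smul_le_iff hm g _ _).2 (le_sSup hw))
  have h4 : g • sSup S ≤ sSup S :=
    le_sSup ⟨((smul_le_iff hm g _ _).2 h1).trans hy.le, (smul_le_iff hm g _ _).2 h3⟩
  exact ⟨sSup S, le_antisymm h4 h3, h2, h1⟩

/-- the intermediate value property for order automorphisms of a complete linear order -/
theorem ivp (hm : ∀ (g : G) (x y : X), x < y → g • x < g • y) (g : G) (x y : X)
    (hx : x < g • x) (hy : g • y < y) : ∃ z, g • z = z ∧ min x y ≤ z ∧ z ≤ max x y := by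
  rcases lt_trichotomy x y with h | h | h
  · obtain ⟨z, h1, h2, h3⟩ := ivp_aux hm g x y h hx hy
    exact ⟨z, h1, by simp [h2], by simp [h3]⟩
  · subst h; exact absurd hx (lt_asymm hy)
  · obtain ⟨z, h1, h2, h3⟩ := ivp_aux hm g⁻¹ y x h ((lt_inv_smul hm g _ _).2 hy)
      ((inv_smul_lt hm g _ _).2 hx)
    rw [inv_smul_eq_iff] at h1
    exact ⟨z, h1.symm, by simp [h2], by simp [h3]⟩

theorem lt_pow_smul (hm : ∀ (g : G) (x y : X), x < y → g • x < g • y) (g : G) (x : X)
    (hx : x < g • x) : ∀ s : ℕ, 0 < s → x < g ^ s • x := by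
  intro s hs
  induction s with
  | zero => exact absurd hs (lt_irrefl _)
  | succ s ih =>
    rcases Nat.eq_zero_or_pos s with h | h
    · subst h; simpa using hx
    · rw [pow_succ', mul_smul]
      exact hx.trans (hm g _ _ (ih h))

theorem pow_smul_lt (hm : ∀ (g : G) (x y : X), x < y → g • x < g • y) (g : G) (x : X)
    (hx : g • x < x) : ∀ s : ℕ, 0 < s → g ^ s • x < x := by
  intro s hs
  induction s with
  | zero => exact absurd hs (lt_irrefl _)
  | succ s ih =>
    rcases Nat.eq_zero_or_pos s with h | h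
    · subst h; simpa using hx
    · rw [pow_succ', mul_smul]
      exact (hm g _ _ (ih h)).trans hx

omit [CompleteLinearOrder X] in
theorem pow_smul_eq (g : G) (x : X) (hx : g • x = x) (s : ℕ) : g ^ s • x = x := by
  induction s with
  | zero => simp
  | succ s ih => rw [pow_succ', mul_smul, ih, hx]

theorem lt_pow_smul_iff (hm : ∀ (g : G) (x y : X), x < y → g • x < g • y) (g : G) (x : X)
    (s : ℕ) (hs : 0 < s) : x < g ^ s • x ↔ x < g • x := by
  refine ⟨fun h => ?_, fun h => lt_pow_smul hm g x h s hs⟩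
  rcases lt_trichotomy x (g • x) with h' | h' | h'
  · exact h'
  · rw [pow_smul_eq g x h'.symm] at h; exact absurd h (lt_irrefl _)
  · exact absurd h (lt_asymm (pow_smul_lt hm g x h' s hs))

theorem pow_smul_lt_iff (hm : ∀ (g : G) (x y : X), x < y → g • x < g • y) (g : G) (x : X)
    (s : ℕ) (hs : 0 < s) : g ^ s • x < x ↔ g • x < x := by
  refine ⟨fun h => ?_, fun h => pow_smul_lt hm g x h s hs⟩
  rcases lt_trichotomy x (g • x) with h' | h' | h'
  · exact absurd h (lt_asymm (lt_pow_smul hm g x h' s hs))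
  · rw [pow_smul_eq g x h'.symm] at h; exact absurd h (lt_irrefl _)
  · exact h'

theorem pow_smul_eq_iff (hm : ∀ (g : G) (x y : X), x < y → g • x < g • y) (g : G) (x : X)
    (s : ℕ) (hs : 0 < s) : g ^ s • x = x ↔ g • x = x := by
  refine ⟨fun h => ?_, fun h => pow_smul_eq g x h s⟩
  rcases lt_trichotomy x (g • x) with h' | h' | h'
  · exact absurd h (lt_pow_smul hm g x h' s hs).ne'
  · exact h'.symm
  · exact absurd h (pow_smul_lt hm g x h' s hs).ne

end Basic

/-- The relations.  `m j` are the classes of the curves, `μ j` the meridians of the surgery curves,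
`t` the class transverse to the fibre. -/
structure Rel (G : Type*) [Group G] (n : ℕ) (m μ : ℕ → G) (t : G) (p q : ℕ) : Prop where
  hp : 0 < p
  hqp : q ≤ p
  step : ∀ j < 2 * n, m (j + 2) = m j * μ (j + 1)
  comm : ∀ j < 2 * n, μ (j + 1) * m (j + 1) = m (j + 1) * μ (j + 1)
  slope : ∀ j < 2 * n, ∃ r s : ℕ, 0 < s ∧ μ (j + 1) ^ s = m (j + 1) ^ r
  cl0 : t * m (2 * n) * t⁻¹ = m 1 * (m 0)⁻¹ * (m 1)⁻¹
  cl1 : t * m (2 * n + 1) * t⁻¹ = m 1 * m 0 * (m 1)⁻¹ * (m 0)⁻¹ * (m 1)⁻¹
  fill : t ^ p * (m 0 * m 1 * (m 0)⁻¹ * (m 1)⁻¹) ^ q = 1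

section Alg
variable {G : Type*} [Group G] {n : ℕ} {m μ : ℕ → G} {t : G} {p q : ℕ}

theorem Rel.boundary (R : Rel G n m μ t p q) : ∀ i ≤ n,
    m (2 * i) * m (2 * i + 1) * (m (2 * i))⁻¹ * (m (2 * i + 1))⁻¹ =
      m 0 * m 1 * (m 0)⁻¹ * (m 1)⁻¹ := by
  intro i
  induction i with
  | zero => intro _; rfl
  | succ i ih =>
    intro hi
    have h0 := ih (by omega)
    have s1 := R.step (2 * i) (by omega)
    have s2 := R.step (2 * i + 1) (by omega)
    have c1 := R.comm (2 * i) (by omega)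
    have c2 := R.comm (2 * i + 1) (by omega)
    rw [← h0]
    have e1 : 2 * (i + 1) = 2 * i + 2 := by ring
    have e2 : 2 * i + 1 + 2 = 2 * i + 3 := by ring
    have e3 : 2 * i + 2 + 1 = 2 * i + 3 := by ring
    have e4 : 2 * i + 1 + 1 = 2 * i + 2 := by ring
    rw [e1, e3]
    rw [e2, e4] at s2
    rw [e4] at c2
    -- first m3 = m1 * μ2 with μ2 commuting with m2
    have k2 : m (2 * i + 2) * m (2 * i + 3) * (m (2 * i + 2))⁻¹ * (m (2 * i + 3))⁻¹ =
        m (2 * i + 2) * m (2 * i + 1) * (m (2 * i + 2))⁻¹ * (m (2 * i + 1))⁻¹ := by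
      rw [s2]
      have : μ (2 * i + 2) * (m (2 * i + 2))⁻¹ = (m (2 * i + 2))⁻¹ * μ (2 * i + 2) := by
        rw [eq_inv_mul_iff_mul_eq, ← mul_assoc, ← c2, mul_assoc, mul_inv_cancel, mul_one]
      calc m (2 * i + 2) * (m (2 * i + 1) * μ (2 * i + 2)) * (m (2 * i + 2))⁻¹ *
            (m (2 * i + 1) * μ (2 * i + 2))⁻¹
          = m (2 * i + 2) * m (2 * i + 1) * (μ (2 * i + 2) * (m (2 * i + 2))⁻¹) *
            (μ (2 * i + 2))⁻¹ * (m (2 * i + 1))⁻¹ := by group
        _ = _ := by rw [this]; group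
    rw [k2, s1]
    have : μ (2 * i + 1) * m (2 * i + 1) * (μ (2 * i + 1))⁻¹ = m (2 * i + 1) := by
      rw [c1]; group
    calc m (2 * i) * μ (2 * i + 1) * m (2 * i + 1) * (m (2 * i) * μ (2 * i + 1))⁻¹ *
          (m (2 * i + 1))⁻¹
        = m (2 * i) * (μ (2 * i + 1) * m (2 * i + 1) * (μ (2 * i + 1))⁻¹) * (m (2 * i))⁻¹ *
          (m (2 * i + 1))⁻¹ := by group
      _ = _ := by rw [this]

/-- `t` commutes with the boundary class. -/
theorem Rel.tcomm (R : Rel G n m μ t p q) :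
    t * (m 0 * m 1 * (m 0)⁻¹ * (m 1)⁻¹) = (m 0 * m 1 * (m 0)⁻¹ * (m 1)⁻¹) * t := by
  have hb := R.boundary n le_rfl
  have h0 := R.cl0
  have h1 := R.cl1
  have : t * (m 0 * m 1 * (m 0)⁻¹ * (m 1)⁻¹) * t⁻¹ = m 0 * m 1 * (m 0)⁻¹ * (m 1)⁻¹ := by
    rw [← hb]
    calc t * (m (2 * n) * m (2 * n + 1) * (m (2 * n))⁻¹ * (m (2 * n + 1))⁻¹) * t⁻¹
        = (t * m (2 * n) * t⁻¹) * (t * m (2 * n + 1) * t⁻¹) * (t * m (2 * n) * t⁻¹)⁻¹ *
          (t * m (2 * n + 1) * t⁻¹)⁻¹ := by group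
      _ = m (2 * n) * m (2 * n + 1) * (m (2 * n))⁻¹ * (m (2 * n + 1))⁻¹ := by
          rw [h0, h1, hb]; group
  calc t * (m 0 * m 1 * (m 0)⁻¹ * (m 1)⁻¹)
      = (t * (m 0 * m 1 * (m 0)⁻¹ * (m 1)⁻¹) * t⁻¹) * t := by group
    _ = _ := by rw [this]

end Alg

section Signs
variable {G X : Type*} [Group G] [CompleteLinearOrder X] [MulAction G X]
  {n : ℕ} {m μ : ℕ → G} {t : G} {p q : ℕ}

theorem Rel.pos (hm : ∀ (g : G) (x y : X), x < y → g • x < g • y) (R : Rel G n m μ t p q)
    (j : ℕ) (hj : j < 2 * n) (z : X) (h : z ≤ m (j + 1) • z) : z ≤ μ (j + 1) • z := by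
  obtain ⟨r, s, hs, e⟩ := R.slope j hj
  by_contra hc
  have h1 := (pow_smul_lt_iff hm (μ (j + 1)) z s hs).2 (not_le.1 hc)
  rw [e] at h1
  rcases Nat.eq_zero_or_pos r with hr | hr
  · subst hr; simp at h1
  · exact absurd h (not_le.2 ((pow_smul_lt_iff hm _ z r hr).1 h1))

theorem Rel.neg (hm : ∀ (g : G) (x y : X), x < y → g • x < g • y) (R : Rel G n m μ t p q)
    (j : ℕ) (hj : j < 2 * n) (z : X) (h : m (j + 1) • z ≤ z) : μ (j + 1) • z ≤ z := by
  obtain ⟨r, s, hs, e⟩ := R.slope j hj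
  by_contra hc
  have h1 := (lt_pow_smul_iff hm (μ (j + 1)) z s hs).2 (not_le.1 hc)
  rw [e] at h1
  rcases Nat.eq_zero_or_pos r with hr | hr
  · subst hr; simp at h1
  · exact absurd h (not_le.2 ((lt_pow_smul_iff hm _ z r hr).1 h1))

/-- forward propagation of weak positivity -/
theorem Rel.fwd_pos (hm : ∀ (g : G) (x y : X), x < y → g • x < g • y) (R : Rel G n m μ t p q)
    (z : X) (h0 : z ≤ m 0 • z) (h1 : z ≤ m 1 • z) :
    ∀ j, j ≤ 2 * n → z ≤ m j • z ∧ z ≤ m (j + 1) • z := by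
  intro j
  induction j with
  | zero => intro _; exact ⟨h0, h1⟩
  | succ j ih =>
    intro hj
    obtain ⟨h2, h3⟩ := ih (by omega)
    refine ⟨h3, ?_⟩
    rw [R.step j (by omega), mul_smul]
    exact h2.trans ((smul_le_iff hm _ _ _).2 (R.pos hm j (by omega) z h3))

theorem Rel.fwd_neg (hm : ∀ (g : G) (x y : X), x < y → g • x < g • y) (R : Rel G n m μ t p q)
    (z : X) (h0 : m 0 • z ≤ z) (h1 : m 1 • z ≤ z) :
    ∀ j, j ≤ 2 * n → m j • z ≤ z ∧ m (j + 1) • z ≤ z := by
  intro j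
  induction j with
  | zero => intro _; exact ⟨h0, h1⟩
  | succ j ih =>
    intro hj
    obtain ⟨h2, h3⟩ := ih (by omega)
    refine ⟨h3, ?_⟩
    rw [R.step j (by omega), mul_smul]
    exact ((smul_le_iff hm _ _ _).2 (R.neg hm j (by omega) z h3)).trans h2

theorem le_inv_smul (hm : ∀ (g : G) (x y : X), x < y → g • x < g • y) (g : G) (x y : X) :
    x ≤ g⁻¹ • y ↔ g • x ≤ y := by
  rw [← smul_le_iff hm g, smul_inv_smul]

theorem inv_smul_le (hm : ∀ (g : G) (x y : X), x < y → g • x < g • y) (g : G) (x y : X) :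
    g⁻¹ • x ≤ y ↔ x ≤ g • y := by
  rw [← smul_le_iff hm g, smul_inv_smul]

/-- one double step of backward propagation of an alternating sign pattern -/
theorem Rel.bwd_step_neg (hm : ∀ (g : G) (x y : X), x < y → g • x < g • y)
    (R : Rel G n m μ t p q) (z : X) (j : ℕ) (hj : j + 1 < 2 * n)
    (h2 : m (j + 2) • z < z) (h3 : z < m (j + 3) • z) :
    m j • z < z ∧ z < m (j + 1) • z := by
  have s2 := R.step (j + 1) hj
  have s1 := R.step j (by omega)
  have k1 : m (j + 1) = m (j + 3) * (μ (j + 2))⁻¹ := by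
    rw [show j + 3 = j + 1 + 2 by ring, s2]; group
  have k0 : m j = m (j + 2) * (μ (j + 1))⁻¹ := by rw [s1]; group
  have a1 : z < m (j + 1) • z := by
    rw [k1, mul_smul]
    refine h3.trans_le ((smul_le_iff hm _ _ _).2 ?_)
    rw [le_inv_smul hm]
    exact R.neg hm (j + 1) hj z h2.le
  refine ⟨?_, a1⟩
  rw [k0, mul_smul]
  refine ((smul_le_iff hm _ _ _).2 ?_).trans_lt h2
  rw [inv_smul_le hm]
  exact R.pos hm j (by omega) z a1.le

theorem Rel.bwd_step_pos (hm : ∀ (g : G) (x y : X), x < y → g • x < g • y)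
    (R : Rel G n m μ t p q) (z : X) (j : ℕ) (hj : j + 1 < 2 * n)
    (h2 : z < m (j + 2) • z) (h3 : m (j + 3) • z < z) :
    z < m j • z ∧ m (j + 1) • z < z := by
  have s2 := R.step (j + 1) hj
  have s1 := R.step j (by omega)
  have k1 : m (j + 1) = m (j + 3) * (μ (j + 2))⁻¹ := by
    rw [show j + 3 = j + 1 + 2 by ring, s2]; group
  have k0 : m j = m (j + 2) * (μ (j + 1))⁻¹ := by rw [s1]; group
  have a1 : m (j + 1) • z < z := by
    rw [k1, mul_smul]
    refine ((smul_le_iff hm _ _ _).2 ?_).trans_lt h3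
    rw [inv_smul_le hm]
    exact R.pos hm (j + 1) hj z h2.le
  refine ⟨?_, a1⟩
  rw [k0, mul_smul]
  refine h2.trans_le ((smul_le_iff hm _ _ _).2 ?_)
  rw [le_inv_smul hm]
  exact R.neg hm j (by omega) z a1.le

theorem Rel.bwd_neg (hm : ∀ (g : G) (x y : X), x < y → g • x < g • y)
    (R : Rel G n m μ t p q) (z : X) (h2 : m (2 * n) • z < z) (h3 : z < m (2 * n + 1) • z) :
    m 0 • z < z ∧ z < m 1 • z := by
  have key : ∀ i, i ≤ n → m (2 * (n - i)) • z < z ∧ z < m (2 * (n - i) + 1) • z := by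
    intro i
    induction i with
    | zero => intro _; exact ⟨h2, h3⟩
    | succ i ih =>
      intro hi
      obtain ⟨a, b⟩ := ih (by omega)
      have e : 2 * (n - i) = 2 * (n - (i + 1)) + 2 := by omega
      rw [e] at a b
      exact R.bwd_step_neg hm z _ (by omega) a b
  simpa using key n le_rfl

theorem Rel.bwd_pos (hm : ∀ (g : G) (x y : X), x < y → g • x < g • y)
    (R : Rel G n m μ t p q) (z : X) (h2 : z < m (2 * n) • z) (h3 : m (2 * n + 1) • z < z) :
    z < m 0 • z ∧ m 1 • z < z := by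
  have key : ∀ i, i ≤ n → z < m (2 * (n - i)) • z ∧ m (2 * (n - i) + 1) • z < z := by
    intro i
    induction i with
    | zero => intro _; exact ⟨h2, h3⟩
    | succ i ih =>
      intro hi
      obtain ⟨a, b⟩ := ih (by omega)
      have e : 2 * (n - i) = 2 * (n - (i + 1)) + 2 := by omega
      rw [e] at a b
      exact R.bwd_step_pos hm z _ (by omega) a b
  simpa using key n le_rfl

theorem Rel.end_pos (hm : ∀ (g : G) (x y : X), x < y → g • x < g • y) (R : Rel G n m μ t p q)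
    (z : X) (h0 : z ≤ m 0 • z) (h1 : z ≤ m 1 • z) :
    z ≤ m (2 * n) • z ∧ z ≤ m (2 * n + 1) • z := R.fwd_pos hm z h0 h1 _ le_rfl

theorem Rel.end_neg (hm : ∀ (g : G) (x y : X), x < y → g • x < g • y) (R : Rel G n m μ t p q)
    (z : X) (h0 : m 0 • z ≤ z) (h1 : m 1 • z ≤ z) :
    m (2 * n) • z ≤ z ∧ m (2 * n + 1) • z ≤ z := R.fwd_neg hm z h0 h1 _ le_rfl

/-- abbreviation for the boundary class -/
def bd (m : ℕ → G) : G := m 0 * m 1 * (m 0)⁻¹ * (m 1)⁻¹

theorem Rel.t_fix (hm : ∀ (g : G) (x y : X), x < y → g • x < g • y) (R : Rel G n m μ t p q)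
    (z : X) (hz : bd m • z = z) : t • z = z := by
  rw [← pow_smul_eq_iff hm t z p R.hp]
  have h := R.fill
  have h2 : (bd m) ^ q • z = z := pow_smul_eq _ _ hz q
  have : t ^ p • (bd m) ^ q • z = z := by
    rw [← mul_smul]; unfold bd; rw [h, one_smul]
  rwa [h2] at this

omit [CompleteLinearOrder X] in
/-- the action of `t` on a point, composed with the closing relations -/
theorem Rel.cl0_smul (R : Rel G n m μ t p q) (z : X) :
    t • m (2 * n) • z = (m 0)⁻¹ • bd m • t • z := by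
  have h := R.cl0
  have : t * m (2 * n) = (m 0)⁻¹ * (bd m * t) := by
    calc t * m (2 * n) = (t * m (2 * n) * t⁻¹) * t := by group
      _ = _ := by rw [h]; unfold bd; group
  rw [← mul_smul, this, mul_smul, mul_smul]

omit [CompleteLinearOrder X] in
theorem Rel.cl1_smul (R : Rel G n m μ t p q) (z : X) :
    t • m (2 * n + 1) • z = (bd m)⁻¹ • (m 1)⁻¹ • t • z := by
  have h := R.cl1
  have : t * m (2 * n + 1) = (bd m)⁻¹ * ((m 1)⁻¹ * t) := by
    calc t * m (2 * n + 1) = (t * m (2 * n + 1) * t⁻¹) * t := by group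
      _ = _ := by rw [h]; unfold bd; group
  rw [← mul_smul, this, mul_smul, mul_smul]

/-- A point fixed by the boundary class is fixed by `m 0` and `m 1`. -/
theorem Rel.fix_of_bd (hm : ∀ (g : G) (x y : X), x < y → g • x < g • y)
    (R : Rel G n m μ t p q) (z : X) (hz : bd m • z = z) : m 0 • z = z ∧ m 1 • z = z := by
  have ht := R.t_fix hm z hz
  have e0 := R.cl0_smul z
  have e1 := R.cl1_smul z
  rw [ht, hz] at e0
  rw [ht] at e1
  have z0p : z ≤ m (2 * n) • z → m 0 • z ≤ z := by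
    intro h
    have := (smul_le_iff hm t _ _).2 h
    rw [ht, e0, le_inv_smul hm] at this
    exact this
  have z0n : m (2 * n) • z ≤ z → z ≤ m 0 • z := by
    intro h
    have := (smul_le_iff hm t _ _).2 h
    rw [ht, e0, inv_smul_le hm] at this
    exact this
  have z1p : z ≤ m (2 * n + 1) • z → m 1 • z ≤ z := by
    intro h
    have := (smul_le_iff hm t _ _).2 h
    rw [ht, e1, le_inv_smul hm, le_inv_smul hm, hz] at this
    exact this
  have z1n : m (2 * n + 1) • z ≤ z → z ≤ m 1 • z := by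
    intro h
    have := (smul_le_iff hm t _ _).2 h
    rw [ht, e1, inv_smul_le hm, inv_smul_le hm, hz] at this
    exact this
  have z1p' : m 1 • z < z → z < m (2 * n + 1) • z := by
    intro h
    rw [← smul_lt_iff hm t, ht, e1, lt_inv_smul hm, lt_inv_smul hm, hz]
    exact h
  have z1n' : z < m 1 • z → m (2 * n + 1) • z < z := by
    intro h
    rw [← smul_lt_iff hm t, ht, e1, inv_smul_lt hm, inv_smul_lt hm, hz]
    exact h
  have z0p' : m 0 • z < z → z < m (2 * n) • z := by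
    intro h
    rw [← smul_lt_iff hm t, ht, e0, lt_inv_smul hm]
    exact h
  have z0n' : z < m 0 • z → m (2 * n) • z < z := by
    intro h
    rw [← smul_lt_iff hm t, ht, e0, inv_smul_lt hm]
    exact h
  have wpos : z ≤ m 0 • z → z ≤ m 1 • z → m 0 • z = z ∧ m 1 • z = z := by
    intro a b
    have := R.end_pos hm z a b
    exact ⟨le_antisymm (z0p this.1) a, le_antisymm (z1p this.2) b⟩
  have wneg : m 0 • z ≤ z → m 1 • z ≤ z → m 0 • z = z ∧ m 1 • z = z := by
    intro a b
    have := R.end_neg hm z a b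
    exact ⟨le_antisymm a (z0n this.1), le_antisymm b (z1n this.2)⟩
  rcases lt_trichotomy (m 0 • z) z with h0 | h0 | h0
  · rcases le_or_gt (m 1 • z) z with h1 | h1
    · exact wneg h0.le h1
    · have := R.bwd_pos hm z (z0p' h0) (z1n' h1)
      exact absurd this.1 (lt_asymm h0)
  · rcases le_total (m 1 • z) z with h1 | h1
    · exact wneg h0.le h1
    · exact wpos h0.ge h1
  · rcases lt_or_ge (m 1 • z) z with h1 | h1
    · have := R.bwd_neg hm z (z0n' h0) (z1p' h1)
      exact absurd this.1 (lt_asymm h0)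
    · exact wpos h0.le h1

/-- `T = t⁻¹` lies between the identity and the boundary class where the latter is positive. -/
theorem Rel.t_le (hm : ∀ (g : G) (x y : X), x < y → g • x < g • y) (R : Rel G n m μ t p q)
    (z : X) (hz : z < bd m • z) : t • z ≤ z := by
  by_contra h
  have h1 := lt_pow_smul hm t z (not_le.1 h) p R.hp
  have e : t ^ p = ((bd m) ^ q)⁻¹ := eq_inv_of_mul_eq_one_left R.fill
  rw [e, lt_inv_smul hm] at h1
  rcases Nat.eq_zero_or_pos q with h0 | h0
  · subst h0; simp at h1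
  · exact absurd h1 (lt_asymm (lt_pow_smul hm _ z hz q h0))

theorem Rel.le_bdt (hm : ∀ (g : G) (x y : X), x < y → g • x < g • y) (R : Rel G n m μ t p q)
    (z : X) (hz : z < bd m • z) : z ≤ bd m • t • z := by
  by_contra h
  have hc : Commute (bd m) t := R.tcomm.symm
  rw [← mul_smul] at h
  have h1 := pow_smul_lt hm (bd m * t) z (not_le.1 h) p R.hp
  have e : t ^ p = ((bd m) ^ q)⁻¹ := eq_inv_of_mul_eq_one_left R.fill
  rw [hc.mul_pow, e, ← pow_sub _ R.hqp] at h1
  rcases Nat.eq_zero_or_pos (p - q) with h0 | h0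
  · rw [h0] at h1; simp at h1
  · exact absurd h1 (lt_asymm (lt_pow_smul hm _ z hz _ h0))

omit [CompleteLinearOrder X] in
/-- the boundary class fixes a point fixed by `m 0` and `m 1` -/
theorem Rel.bd_fix (z : X) (h0 : m 0 • z = z) (h1 : m 1 • z = z) : bd m • z = z := by
  have a0 : (m 0)⁻¹ • z = z := by rw [inv_smul_eq_iff]; exact h0.symm
  have a1 : (m 1)⁻¹ • z = z := by rw [inv_smul_eq_iff]; exact h1.symm
  unfold bd
  rw [mul_smul, mul_smul, mul_smul, a1, a0, h1, h0]

theorem smul_mem_Ioo (hm : ∀ (g : G) (x y : X), x < y → g • x < g • y) (g : G) (α β z : X)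
    (hα : g • α = α) (hβ : g • β = β) (hz : α < z ∧ z < β) : α < g • z ∧ g • z < β := by
  refine ⟨?_, ?_⟩
  · rw [← hα]; exact hm _ _ _ hz.1
  · rw [← hβ]; exact hm _ _ _ hz.2

omit [CompleteLinearOrder X] in
theorem inv_fix (g : G) (z : X) (h : g • z = z) : g⁻¹ • z = z := by
  rw [inv_smul_eq_iff]; exact h.symm

/-- **Core theorem.** There is no point moved up by the boundary class. -/
theorem Rel.core (hm : ∀ (g : G) (x y : X), x < y → g • x < g • y) (R : Rel G n m μ t p q)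
    (x : X) (hx : x < bd m • x) : False := by
  classical
  -- the component
  let F : Set X := {z | m 0 • z = z ∧ m 1 • z = z}
  set α := sSup {z | z ∈ F ∧ z ≤ x} with hα
  set β := sInf {z | z ∈ F ∧ x ≤ z} with hβ
  have α0 : m 0 • α = α := fixed_sSup hm _ _ fun z hz => hz.1.1
  have α1 : m 1 • α = α := fixed_sSup hm _ _ fun z hz => hz.1.2
  have β0 : m 0 • β = β := fixed_sInf hm _ _ fun z hz => hz.1.1
  have β1 : m 1 • β = β := fixed_sInf hm _ _ fun z hz => hz.1.2
  have αd := Rel.bd_fix α α0 α1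
  have βd := Rel.bd_fix β β0 β1
  have αt := R.t_fix hm α αd
  have βt := R.t_fix hm β βd
  have hαx : α < x := by
    refine lt_of_le_of_ne (sSup_le fun z hz => hz.2) ?_
    rintro h
    rw [← h, αd] at hx
    exact absurd hx (lt_irrefl _)
  have hxβ : x < β := by
    refine lt_of_le_of_ne (le_sInf fun z hz => hz.2) ?_
    rintro h
    rw [h, βd] at hx
    exact absurd hx (lt_irrefl _)
  -- no common fixed point in (α, β)
  have nofix : ∀ z, α < z → z < β → ¬ (m 0 • z = z ∧ m 1 • z = z) := by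
    intro z h1 h2 h3
    rcases le_total z x with h | h
    · exact absurd (le_sSup (show z ∈ {z | z ∈ F ∧ z ≤ x} from ⟨h3, h⟩)) (not_le.2 h1)
    · exact absurd (sInf_le (show z ∈ {z | z ∈ F ∧ x ≤ z} from ⟨h3, h⟩)) (not_le.2 h2)
  have dpos : ∀ z, α < z → z < β → z < bd m • z := by
    intro z h1 h2
    rcases lt_trichotomy z (bd m • z) with h | h | h
    · exact h
    · exact absurd (R.fix_of_bd hm z h.symm) (nofix z h1 h2)
    · obtain ⟨w, hw, hw1, hw2⟩ := ivp hm (bd m) x z hx h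
      exact absurd (R.fix_of_bd hm w hw)
        (nofix w ((lt_min hαx h1).trans_le hw1) (hw2.trans_lt (max_lt hxβ h2)))
  have tle : ∀ z, α < z → z < β → t • z ≤ z := fun z h1 h2 => R.t_le hm z (dpos z h1 h2)
  have led : ∀ z, α < z → z < β → z ≤ bd m • t • z :=
    fun z h1 h2 => R.le_bdt hm z (dpos z h1 h2)
  -- (a)
  have ca : ∀ z, α < z → z < β → ¬ (z ≤ m 0 • z ∧ z ≤ m 1 • z) := by
    rintro z h1 h2 ⟨h3, h4⟩
    have e := (R.end_pos hm z h3 h4).2
    have e1 := (smul_le_iff hm t _ _).2 e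
    rw [R.cl1_smul, le_inv_smul hm, le_inv_smul hm] at e1
    have e2 : m 1 • z ≤ m 1 • bd m • t • z := (smul_le_iff hm _ _ _).2 (led z h1 h2)
    have e3 := tle z h1 h2
    -- all inequalities are equalities
    have q1 : t • z = z := le_antisymm e3 (h4.trans (e2.trans e1))
    have q2 : m 1 • z = m 1 • bd m • t • z :=
      le_antisymm e2 (e1.trans (e3.trans h4))
    have q3 : z = bd m • t • z := by
      have := congrArg (fun w => (m 1)⁻¹ • w) q2
      simpa using this
    rw [q1] at q3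
    exact absurd (dpos z h1 h2) (by rw [← q3]; exact lt_irrefl _)
  -- (b)
  have cb : ∀ z, α < z → z < β → ¬ (m 0 • z ≤ z ∧ m 1 • z ≤ z) := by
    rintro z h1 h2 ⟨h3, h4⟩
    have e := (R.end_neg hm z h3 h4).1
    have e1 := (smul_le_iff hm t _ _).2 e
    rw [R.cl0_smul, inv_smul_le hm] at e1
    have e2 : m 0 • t • z ≤ m 0 • z := (smul_le_iff hm _ _ _).2 (tle z h1 h2)
    have e3 := led z h1 h2
    have q2 : m 0 • t • z = m 0 • z := le_antisymm e2 (h3.trans (e3.trans e1))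
    have q1 : t • z = z := by
      have := congrArg (fun w => (m 0)⁻¹ • w) q2
      simpa using this
    have q3 : z = bd m • t • z := le_antisymm e3 (e1.trans (e2.trans h3))
    rw [q1] at q3
    exact absurd (dpos z h1 h2) (by rw [← q3]; exact lt_irrefl _)
  -- (c)
  have cc : ∀ z, α < z → z < β →
      (z < m 0 • z ∧ m 1 • z < z) ∨ (m 0 • z < z ∧ z < m 1 • z) := by
    intro z h1 h2
    rcases lt_trichotomy (m 0 • z) z with h | h | h
    · right
      refine ⟨h, ?_⟩
      by_contra hc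
      exact cb z h1 h2 ⟨h.le, not_lt.1 hc⟩
    · exfalso
      rcases le_total z (m 1 • z) with h' | h'
      · exact ca z h1 h2 ⟨h.ge, h'⟩
      · exact cb z h1 h2 ⟨h.le, h'⟩
    · left
      refine ⟨h, ?_⟩
      by_contra hc
      exact ca z h1 h2 ⟨h.le, not_lt.1 hc⟩
  -- (d) constant sign
  have cd : ∀ z w, α < z → z < β → α < w → w < β → z < m 0 • z → m 0 • w < w → False := by
    intro z w h1 h2 h3 h4 h5 h6
    obtain ⟨u, hu, hu1, hu2⟩ := ivp hm (m 0) z w h5 h6
    have a1 : α < u := (lt_min h1 h3).trans_le hu1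
    have a2 : u < β := hu2.trans_lt (max_lt h2 h4)
    rcases cc u a1 a2 with h | h
    · rw [hu] at h; exact absurd h.1 (lt_irrefl _)
    · rw [hu] at h; exact absurd h.1 (lt_irrefl _)
  -- the point y = t x
  have hy := smul_mem_Ioo hm t α β x αt βt ⟨hαx, hxβ⟩
  have hv := smul_mem_Ioo hm (m 1)⁻¹ α β _ (inv_fix _ _ α1) (inv_fix _ _ β1) hy
  have hw := smul_mem_Ioo hm (m 0)⁻¹ α β _ (inv_fix _ _ α0) (inv_fix _ _ β0) hv
  have bdy : bd m • t • x = m 0 • m 1 • (m 0)⁻¹ • (m 1)⁻¹ • t • x := by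
    unfold bd; simp only [mul_smul]
  rcases cc x hαx hxβ with hcase | hcase
  · -- m 0 > id, m 1 < id
    have P0 : ∀ z, α < z → z < β → z < m 0 • z := by
      intro z h1 h2
      rcases cc z h1 h2 with h | h
      · exact h.1
      · exact (cd x z hαx hxβ h1 h2 hcase.1 h.1).elim
    have P1 : ∀ z, α < z → z < β → m 1 • z < z := by
      intro z h1 h2
      rcases cc z h1 h2 with h | h
      · exact h.2
      · exact (cd x z hαx hxβ h1 h2 hcase.1 h.1).elim
    have e0 : m (2 * n) • x < x := by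
      rw [← smul_lt_iff hm t, R.cl0_smul, inv_smul_lt hm, bdy]
      refine hm _ _ _ ?_
      have : (m 0)⁻¹ • (m 1)⁻¹ • t • x < (m 1)⁻¹ • t • x := by
        rw [inv_smul_lt hm]; exact P0 _ hv.1 hv.2
      calc m 1 • (m 0)⁻¹ • (m 1)⁻¹ • t • x < m 1 • (m 1)⁻¹ • t • x := hm _ _ _ this
        _ = t • x := by rw [smul_inv_smul]
    have e1 : x < m (2 * n + 1) • x := by
      rw [← smul_lt_iff hm t, R.cl1_smul, lt_inv_smul hm, bdy]
      calc m 0 • m 1 • (m 0)⁻¹ • (m 1)⁻¹ • t • x < m 0 • (m 0)⁻¹ • (m 1)⁻¹ • t • x :=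
            hm _ _ _ (P1 _ hw.1 hw.2)
        _ = (m 1)⁻¹ • t • x := by rw [smul_inv_smul]
    exact absurd (R.bwd_neg hm x e0 e1).1 (lt_asymm hcase.1)
  · -- m 0 < id, m 1 > id
    have P0 : ∀ z, α < z → z < β → m 0 • z < z := by
      intro z h1 h2
      rcases cc z h1 h2 with h | h
      · exact (cd z x h1 h2 hαx hxβ h.1 hcase.1).elim
      · exact h.1
    have P1 : ∀ z, α < z → z < β → z < m 1 • z := by
      intro z h1 h2
      rcases cc z h1 h2 with h | h
      · exact (cd z x h1 h2 hαx hxβ h.1 hcase.1).elim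
      · exact h.2
    have e0 : x < m (2 * n) • x := by
      rw [← smul_lt_iff hm t, R.cl0_smul, lt_inv_smul hm, bdy]
      refine hm _ _ _ ?_
      have : (m 1)⁻¹ • t • x < (m 0)⁻¹ • (m 1)⁻¹ • t • x := by
        rw [lt_inv_smul hm]; exact P0 _ hv.1 hv.2
      calc t • x = m 1 • (m 1)⁻¹ • t • x := by rw [smul_inv_smul]
        _ < m 1 • (m 0)⁻¹ • (m 1)⁻¹ • t • x := hm _ _ _ this
    have e1 : m (2 * n + 1) • x < x := by
      rw [← smul_lt_iff hm t, R.cl1_smul, inv_smul_lt hm, bdy]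
      calc (m 1)⁻¹ • t • x = m 0 • (m 0)⁻¹ • (m 1)⁻¹ • t • x := by rw [smul_inv_smul]
        _ < m 0 • m 1 • (m 0)⁻¹ • (m 1)⁻¹ • t • x := hm _ _ _ (P1 _ hw.1 hw.2)
    exact absurd (R.bwd_pos hm x e0 e1).1 (lt_asymm hcase.1)

end Signs

end H88TB
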