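import Mathlib
import Pool.Agent.H88.TorusBundle.Core

/-!
# From left-orders to actions on complete linear orders
-/

namespace H88TB

section Cuts
variable {L : Type*} [Group L] [LinearOrder L]

theorem pow_pos_of_pos (hL : ∀ f g h : L, g < h → f * g < f * h) (g : L) (hg : 1 < g) :
    ∀ k : ℕ, 1 < g ^ (k + 1) := by
  intro k
  induction k with
  | zero => simpa using hg
  | succ k ih =>
    rw [pow_succ']
    have := hL g _ _ ih
    rw [mul_one] at this
    exact hg.trans this

theorem eq_one_of_pow (hL : ∀ f g h : L, g < h → f * g < f * h) (g : L) (k : ℕ) (hk : 0 < k)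
    (h : g ^ k = 1) : g = 1 := by
  obtain ⟨k, rfl⟩ : ∃ l, k = l + 1 := ⟨k - 1, by omega⟩
  rcases lt_trichotomy 1 g with h1 | h1 | h1
  · exact absurd h (pow_pos_of_pos hL g h1 k).ne'
  · exact h1.symm
  · have h2 : 1 < g⁻¹ := by
      have := hL g⁻¹ _ _ h1
      rwa [inv_mul_cancel, mul_one] at this
    have h3 := pow_pos_of_pos hL _ h2 k
    rw [inv_pow, h, inv_one] at h3
    exact absurd h3 (lt_irrefl _)

/-- translation of a lower set -/
def cutSMul (hL : ∀ f g h : L, g < h → f * g < f * h) (g : L) (S : LowerSet L) : LowerSet L where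
  carrier := {x | g⁻¹ * x ∈ S}
  lower' := by
    intro x y hxy hx
    have : g⁻¹ * y ≤ g⁻¹ * x := by
      rcases hxy.lt_or_eq with h | h
      · exact (hL _ _ _ h).le
      · rw [h]
    exact S.lower this hx

theorem mem_cutSMul (hL : ∀ f g h : L, g < h → f * g < f * h) (g x : L) (S : LowerSet L) :
    x ∈ cutSMul hL g S ↔ g⁻¹ * x ∈ S := Iff.rfl

/-- the action of a group on the lower sets of a left-ordered group, through a homomorphism -/
@[reducible]
def cutAction {G : Type*} [Group G] (hL : ∀ f g h : L, g < h → f * g < f * h) (φ : G →* L) :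
    MulAction G (LowerSet L) where
  smul g S := cutSMul hL (φ g) S
  one_smul S := by
    ext x
    change (φ 1)⁻¹ * x ∈ S ↔ x ∈ S
    simp
  mul_smul g h S := by
    ext x
    change (φ (g * h))⁻¹ * x ∈ S ↔ (φ h)⁻¹ * ((φ g)⁻¹ * x) ∈ S
    rw [map_mul, mul_inv_rev, mul_assoc]

theorem no_hom_of_pos {G : Type*} [Group G] {n : ℕ} {m μ : ℕ → G} {t : G} {p q : ℕ}
    (R : Rel G n m μ t p q) (hL : ∀ f g h : L, g < h → f * g < f * h) (φ : G →* L) :
    ¬ 1 < φ (bd m) := by
  intro h
  let _ := cutAction hL φ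
  have smul_def : ∀ (g : G) (S : LowerSet L) (x : L), x ∈ g • S ↔ (φ g)⁻¹ * x ∈ S :=
    fun g S x => Iff.rfl
  have hmono : ∀ (g : G) (x y : LowerSet L), x < y → g • x < g • y := by
    intro g x y hxy
    refine lt_of_le_of_ne ?_ ?_
    · intro z hz
      exact hxy.le hz
    · intro e
      apply hxy.ne
      have := congrArg (fun S => g⁻¹ • S) e
      simpa using this
  refine R.core hmono (LowerSet.Iic (1 : L)) ?_
  refine lt_of_le_of_ne ?_ ?_
  · intro z hz
    have hz' : z ≤ 1 := hz
    change (φ (bd m))⁻¹ * z ≤ 1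
    by_contra hc
    have := hL (φ (bd m)) _ _ (not_le.1 hc)
    rw [mul_inv_cancel_left, mul_one] at this
    exact absurd (this.trans_le hz') (lt_asymm h)
  · intro e
    have h1 : φ (bd m) ∈ (bd m) • LowerSet.Iic (1 : L) := by
      change (φ (bd m))⁻¹ * φ (bd m) ≤ 1
      simp
    rw [← e] at h1
    have h2 : φ (bd m) ≤ 1 := h1
    exact absurd h (not_lt.2 h2)

/-- the boundary class dies in a left-ordered group, hence so do `m 0`, `m 1` -/
theorem no_hom {G : Type*} [Group G] {n : ℕ} {m μ : ℕ → G} {t : G} {p q : ℕ}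
    (R : Rel G n m μ t p q) (hL : ∀ f g h : L, g < h → f * g < f * h) (φ : G →* L) :
    φ (m 0) = 1 ∧ φ (m 1) = 1 := by
  have hb : φ (bd m) = 1 := by
    rcases lt_trichotomy 1 (φ (bd m)) with h | h | h
    · exact absurd h (no_hom_of_pos R hL φ)
    · exact h.symm
    · exfalso
      -- reverse the order
      let φ' : G →* Lᵒᵈ :=
        { toFun := fun g => OrderDual.toDual (φ g)
          map_one' := by simp
          map_mul' := by intro x y; simp }
      have hL' : ∀ f g h : Lᵒᵈ, g < h → f * g < f * h := by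
        intro f g h hgh
        exact hL (OrderDual.ofDual f) (OrderDual.ofDual h) (OrderDual.ofDual g) hgh
      exact no_hom_of_pos (L := Lᵒᵈ) R hL' φ' h
  let _ := cutAction hL φ
  have hmono : ∀ (g : G) (x y : LowerSet L), x < y → g • x < g • y := by
    intro g x y hxy
    refine lt_of_le_of_ne ?_ ?_
    · intro z hz
      exact hxy.le hz
    · intro e
      apply hxy.ne
      have := congrArg (fun S => g⁻¹ • S) e
      simpa using this
  have hfix : bd m • LowerSet.Iic (1 : L) = LowerSet.Iic (1 : L) := by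
    ext x
    change (φ (bd m))⁻¹ * x ≤ 1 ↔ x ≤ 1
    rw [hb]; simp
  have key : ∀ g : G, g • LowerSet.Iic (1 : L) = LowerSet.Iic (1 : L) → φ g = 1 := by
    intro g hg
    have a : φ g ≤ 1 := by
      have h1 : φ g ∈ g • LowerSet.Iic (1 : L) := by
        change (φ g)⁻¹ * φ g ≤ 1
        simp
      rw [hg] at h1
      exact h1
    have b : (φ g)⁻¹ ≤ 1 := by
      have h1 : (1 : L) ∈ g • LowerSet.Iic (1 : L) := by
        rw [hg]; exact le_refl (1 : L)
      have h2 : (φ g)⁻¹ * 1 ≤ 1 := h1
      simpa using h2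
    rcases a.lt_or_eq with h | h
    · have := hL (φ g)⁻¹ _ _ h
      rw [inv_mul_cancel, mul_one] at this
      exact absurd b (not_le.2 this)
    · exact h
  have hf := R.fix_of_bd hmono (LowerSet.Iic (1 : L)) hfix
  exact ⟨key _ hf.1, key _ hf.2⟩

end Cuts

end H88TB
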