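import Mathlib
import Pool.Agent.H88.TorusBundle.Orders

/-!
# Dehn fillings of once-punctured torus bundles of negative type, and rational generalisations

Let `T₀` be a torus minus an open disc, with `π₁(T₀)` free on `a, b` and boundary class
`[a,b] = a b a⁻¹ b⁻¹` (base point on the boundary).  Let `η` be the automorphism
`a ↦ b a⁻¹ b⁻¹`, `b ↦ (b a) b⁻¹ (b a)⁻¹`, which fixes `[a,b]` and acts by `-1` on homology (a lift
of the hyperelliptic involution).  In the mapping torus of `η` take `2n` curves in successive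
fibres, alternately parallel to `b` and to `a`, and perform on the `j`-th one the rational surgery
for which crossing it acts like the `r_j/s_j`-th power of a Dehn twist, of alternating handedness;
finally fill the boundary torus along the slope `t^p [a,b]^q`, where `t` is the class of the
boundary curve transverse to the fibres.  `Grp n r s p q` is the resulting presentation of the
fundamental group.  If `n ≥ 1`, all `s_j = 1` and all `r_j ≥ 1`, this is the filling along
`t^p [a,b]^q` of the once-punctured torus bundle with hyperbolic monodromy of negative trace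
`-(R^{r_1} L^{r_2} ⋯ R^{r_{2n-1}} L^{r_{2n}})`, up to conjugacy and inversion.
-/

namespace H88TB.Fillings

open H88TB

/-- A group is left-orderable if it is nontrivial and has a left-invariant strict total order. -/
def LeftOrderable (G : Type*) [Group G] : Prop :=
  Nontrivial G ∧ ∃ lt : G → G → Prop,
    IsStrictTotalOrder G lt ∧ ∀ f g h : G, lt g h → lt (f * g) (f * h)

/-- The generators: the two free generators `a`, `b` of the fibre group, the transverse class `t`,
and the meridians `u i` of the `2n` surgery curves. -/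
inductive Gen (n : ℕ) where
  | a
  | b
  | t
  | u (i : Fin (2 * n))

/-- `merid n (i+1)` is the generator `u i` for `i < 2n` (and `merid n j = 1` for `j = 0` or
`j > 2n`). -/
def merid (n j : ℕ) : FreeGroup (Gen n) :=
  if h : 1 ≤ j ∧ j ≤ 2 * n then FreeGroup.of (Gen.u ⟨j - 1, by omega⟩) else 1

/-- The classes `m_j` of the curves: `m_0 = a`, `m_1 = b`, `m_{j+2} = m_j u_{j+1}`; the `j`-th
surgery curve (`1 ≤ j ≤ 2n`) is parallel to `m_j`. -/
def curve (n : ℕ) : ℕ → FreeGroup (Gen n)
  | 0 => FreeGroup.of Gen.a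
  | 1 => FreeGroup.of Gen.b
  | j + 2 => curve n j * merid n (j + 1)

/-- The relators: each meridian `u_j` commutes with `m_j` and satisfies `u_j ^ s_j = m_j ^ r_j`;
the top fibre is glued to the bottom one by `η`, i.e. `t m_{2n} t⁻¹ = b a⁻¹ b⁻¹` and
`t m_{2n+1} t⁻¹ = (b a) b⁻¹ (b a)⁻¹`; the filling slope is `t^p (a b a⁻¹ b⁻¹)^q`. -/
def relators (n : ℕ) (r s : Fin (2 * n) → ℕ) (p q : ℕ) : Set (FreeGroup (Gen n)) :=
  {w | (∃ i : Fin (2 * n), w = merid n (i + 1) * curve n (i + 1) *
          (merid n (i + 1))⁻¹ * (curve n (i + 1))⁻¹) ∨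
       (∃ i : Fin (2 * n), w = merid n (i + 1) ^ s i * (curve n (i + 1) ^ r i)⁻¹) ∨
       w = FreeGroup.of Gen.t * curve n (2 * n) * (FreeGroup.of Gen.t)⁻¹ *
          (FreeGroup.of Gen.b * (FreeGroup.of Gen.a)⁻¹ * (FreeGroup.of Gen.b)⁻¹)⁻¹ ∨
       w = FreeGroup.of Gen.t * curve n (2 * n + 1) * (FreeGroup.of Gen.t)⁻¹ *
          ((FreeGroup.of Gen.b * FreeGroup.of Gen.a) * (FreeGroup.of Gen.b)⁻¹ *
            (FreeGroup.of Gen.b * FreeGroup.of Gen.a)⁻¹)⁻¹ ∨
       w = FreeGroup.of Gen.t ^ p * (FreeGroup.of Gen.a * FreeGroup.of Gen.b *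
          (FreeGroup.of Gen.a)⁻¹ * (FreeGroup.of Gen.b)⁻¹) ^ q}

/-- The fundamental group of the closed manifold. -/
abbrev Grp (n : ℕ) (r s : Fin (2 * n) → ℕ) (p q : ℕ) : Type :=
  PresentedGroup (relators n r s p q)

theorem grp_rel (n : ℕ) (r s : Fin (2 * n) → ℕ)
    (hs : ∀ i, 0 < s i) (p q : ℕ) (hp : 0 < p) (hqp : q ≤ p) :
    Rel (Grp n r s p q) n (fun j => PresentedGroup.mk _ (curve n j))
      (fun j => PresentedGroup.mk _ (merid n j)) (PresentedGroup.mk _ (FreeGroup.of Gen.t))
      p q := by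
  have one : ∀ w ∈ relators n r s p q, PresentedGroup.mk (relators n r s p q) w = 1 := by
    intro w hw
    exact (PresentedGroup.one_of_mem hw)
  refine ⟨hp, hqp, ?_, ?_, ?_, ?_, ?_, ?_⟩
  · intro j _
    rw [← map_mul]; rfl
  · intro j hj
    have h := one _ (Or.inl ⟨⟨j, hj⟩, rfl⟩)
    simp only [map_mul, map_inv] at h
    rw [mul_inv_eq_one, mul_inv_eq_iff_eq_mul] at h
    exact h
  · intro j hj
    refine ⟨r ⟨j, hj⟩, s ⟨j, hj⟩, hs _, ?_⟩
    have h := one _ (Or.inr (Or.inl ⟨⟨j, hj⟩, rfl⟩))
    rw [map_mul, map_inv, mul_inv_eq_one, map_pow, map_pow] at h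
    exact h
  · have h := one _ (Or.inr (Or.inr (Or.inl rfl)))
    rw [map_mul, map_inv, mul_inv_eq_one] at h
    simp only [map_mul, map_inv] at h
    exact h
  · have h := one _ (Or.inr (Or.inr (Or.inr (Or.inl rfl))))
    rw [map_mul, map_inv, mul_inv_eq_one] at h
    simp only [map_mul, map_inv, mul_inv_rev] at h
    refine h.trans ?_
    change _ = PresentedGroup.mk _ (FreeGroup.of Gen.b) * PresentedGroup.mk _ (FreeGroup.of Gen.a) *
      _ * _ * _
    simp only [mul_assoc]
    rfl
  · have h := one _ (Or.inr (Or.inr (Or.inr (Or.inr rfl))))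
    simp only [map_mul, map_inv, map_pow] at h
    exact h

theorem hom_trivial.{v} (n : ℕ) (r s : Fin (2 * n) → ℕ)
    (hs : ∀ i, 0 < s i) (p q : ℕ) (hp : 0 < p) (hqp : q ≤ p)
    (L : Type v) [Group L] [LinearOrder L] (hL : ∀ f g h : L, g < h → f * g < f * h)
    (f : Grp n r s p q →* L) : f = 1 := by
  have R := grp_rel n r s hs p q hp hqp
  obtain ⟨h0, h1⟩ := no_hom R hL f
  have hmu : ∀ j < 2 * n, f (PresentedGroup.mk _ (curve n (j + 1))) = 1 →
      f (PresentedGroup.mk _ (merid n (j + 1))) = 1 := by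
    intro j hj h
    obtain ⟨r', s', hs', e⟩ := R.slope j hj
    have e' := congrArg f e
    rw [map_pow, map_pow, h, one_pow] at e'
    exact eq_one_of_pow hL _ _ hs' e'
  have hall : ∀ j ≤ 2 * n, f (PresentedGroup.mk _ (curve n j)) = 1 ∧
      f (PresentedGroup.mk _ (curve n (j + 1))) = 1 := by
    intro j
    induction j with
    | zero => intro _; exact ⟨h0, h1⟩
    | succ j ih =>
      intro hj
      obtain ⟨a1, a2⟩ := ih (by omega)
      refine ⟨a2, ?_⟩
      have e := congrArg f (R.step j (by omega))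
      simp only [map_mul] at e
      rw [e, a1, hmu j (by omega) a2, one_mul]
  have ht : f (PresentedGroup.mk _ (FreeGroup.of Gen.t)) = 1 := by
    have e := congrArg f R.fill
    simp only [map_mul, map_pow, map_inv] at e
    rw [h0, h1] at e
    simp only [inv_one, mul_one, one_pow, map_one] at e
    exact eq_one_of_pow hL _ _ hp e
  refine PresentedGroup.ext fun x => ?_
  rw [MonoidHom.one_apply]
  cases x with
  | a => exact h0
  | b => exact h1
  | t => exact ht
  | u i =>
    have h := hmu i.1 i.2 (hall i.1 i.2.le).2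
    have e : merid n (i.1 + 1) = FreeGroup.of (Gen.u i) := by
      unfold merid
      rw [dif_pos ⟨by omega, by have := i.2; omega⟩]
      rfl
    rw [e] at h
    exact h

/-- **Theorem.** For all `n ≥ 0`, all `r_j ≥ 0`, `s_j ≥ 1` and all `0 ≤ q ≤ p`, `p ≥ 1`, every
homomorphism from `Grp n r s p q` to a left-orderable group is trivial; in particular the group is
not left-orderable. -/
theorem main_result.{v} (n : ℕ) (r s : Fin (2 * n) → ℕ)
    (hs : ∀ i, 0 < s i) (p q : ℕ) (hp : 0 < p) (hqp : q ≤ p) :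
    (∀ (L : Type v) [Group L], LeftOrderable L →
      ∀ (f : Grp n r s p q →* L) (g : Grp n r s p q), f g = 1) ∧
    ¬ LeftOrderable (Grp n r s p q) := by
  classical
  refine ⟨?_, ?_⟩
  · rintro L _ ⟨_, lt, hto, hlt⟩ f g
    let _ : LinearOrder L := linearOrderOfSTO lt
    have h := hom_trivial n r s hs p q hp hqp L (fun a b c h => hlt a b c h) f
    rw [h, MonoidHom.one_apply]
  · rintro ⟨hnt, lt, hto, hlt⟩
    let _ : LinearOrder (Grp n r s p q) := linearOrderOfSTO lt
    have h := hom_trivial n r s hs p q hp hqp (Grp n r s p q)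
      (fun a b c h => hlt a b c h) (MonoidHom.id _)
    obtain ⟨x, hx⟩ := exists_ne (1 : Grp n r s p q)
    apply hx
    have := DFunLike.congr_fun h x
    simpa using this

end H88TB.Fillings
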